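import Pool.Agent.H29.LA.Targets

/-!
# MP_6b5a9a_nt: the coefficients of `f(x, z₀ + T)` for `x` near `x₀` (LOC)
-/

set_option autoImplicit false

open CategoryTheory Polynomial

noncomputable section

namespace Pool.Agent.H36.LA

open Pool.Agent.H29.LA

variable {K : Type} [Field K]

/-- the polynomial `f(X, z₀ + T)` -/
def shf (f : Polynomial (Polynomial K)) (z₀ : K) : Polynomial (Polynomial K) :=
  f.comp (X + C (C z₀))

theorem fib_shf (f : Polynomial (Polynomial K)) (x z₀ : K) :
    fib (shf f z₀) x = (fib f x).comp (X + C z₀) := by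
  unfold fib shf
  rw [Polynomial.map_comp, Polynomial.map_add, Polynomial.map_X, Polynomial.map_C,
    coe_evalRingHom, eval_C]

theorem coeff_fib (f : Polynomial (Polynomial K)) (x z₀ : K) (i : ℕ) :
    ((fib f x).comp (X + C z₀)).coeff i = ((shf f z₀).coeff i).eval x := by
  rw [← fib_shf, fib, coeff_map, coe_evalRingHom]

theorem coeff_zero {m : ℕ} {f : Polynomial (Polynomial K)} {x₀ z₀ : K} (hR : Ram m f x₀ z₀)
    {i : ℕ} (hi : i < m) : ((shf f z₀).coeff i).eval x₀ = 0 := by
  rw [← coeff_fib, hR.fib, pow_comp, sub_comp, X_comp, C_comp, add_sub_cancel_right, coeff_X_pow,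
    if_neg hi.ne]

theorem coeff_shf_zero (f : Polynomial (Polynomial K)) (z₀ : K) :
    (shf f z₀).coeff 0 = f.eval (C z₀) := by
  rw [shf, coeff_zero_eq_eval_zero, eval_comp, eval_add, eval_X, eval_C, zero_add]

theorem val_eval_le {Γ₀ : Type} [LinearOrderedCommGroupWithZero Γ₀] (w : Valuation K Γ₀)
    (p : Polynomial K) (hp : ∀ j, w (p.coeff j) ≤ 1) {t : K} (ht : w t ≤ 1) :
    w (p.eval t) ≤ 1 := by
  rw [eval_eq_sum_range]
  refine w.map_sum_le fun j _ => ?_
  rw [map_mul, map_pow]
  exact mul_le_one' (hp j) (pow_le_one' ht j)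

theorem eval_taylor_sub (p : Polynomial K) (x₀ x : K) :
    (taylor x₀ p).eval (x - x₀) = p.eval x := by
  rw [taylor_apply, eval_comp, eval_add, eval_X, eval_C, sub_add_cancel]

theorem pf_LOC : T_LOC := by
  classical
  intro M _ m f x₀ z₀ hm hmM hR
  set b : ℕ → Polynomial M := fun i => taylor x₀ ((shf f z₀).coeff i) with hb
  set E : Finset M := insert (m : M) (((Finset.range m).biUnion fun i =>
    (Finset.range ((b i).natDegree + 1)).image fun j => (b i).coeff j).filter (· ≠ 0)) with hE
  refine ⟨E, ?_, ?_⟩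
  · intro e he
    rcases Finset.mem_insert.1 he with rfl | he
    · exact hmM
    · exact (Finset.mem_filter.1 he).2
  · intro Γ₀ _ w hw
    refine ⟨hw _ (Finset.mem_insert_self _ _), fun x hx => ?_⟩
    have hmem : ∀ i < m, ∀ j, (b i).coeff j ≠ 0 → w ((b i).coeff j) = 1 := by
      intro i hi j hj
      apply hw
      refine Finset.mem_insert_of_mem (Finset.mem_filter.2 ⟨Finset.mem_biUnion.2
        ⟨i, Finset.mem_range.2 hi, Finset.mem_image.2 ⟨j, Finset.mem_range.2 ?_, rfl⟩⟩, hj⟩)
      exact Nat.lt_succ_of_le (le_natDegree_of_ne_zero hj)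
    have hle : ∀ i < m, ∀ j, w ((b i).coeff j) ≤ 1 := by
      intro i hi j
      by_cases hj : (b i).coeff j = 0
      · rw [hj, map_zero]
        exact zero_le_one
      · exact (hmem i hi j hj).le
    have hb0 : ∀ i < m, (b i).coeff 0 = 0 := by
      intro i hi
      simp only [hb]
      rw [taylor_coeff_zero]
      exact coeff_zero hR hi
    have hval : ∀ i < m, ((shf f z₀).coeff i).eval x = (b i).divX.eval (x - x₀) * (x - x₀) := by
      intro i hi
      have h1 := divX_mul_X_add (b i)
      rw [hb0 i hi, C_0, add_zero] at h1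
      rw [← eval_taylor_sub _ x₀ x]
      change (b i).eval (x - x₀) = _
      conv_lhs => rw [← h1]
      rw [eval_mul, eval_X]
    refine ⟨fun i hi => ?_, ?_⟩
    · rw [coeff_fib, hval i hi, map_mul]
      refine mul_le_of_le_one_left' (val_eval_le w _ (fun j => ?_) hx.le)
      rw [coeff_divX]
      exact hle i hi _
    · rw [coeff_fib, hval 0 hm, map_mul]
      have h1 : (b 0).coeff 1 ≠ 0 := by
        simp only [hb]
        rw [taylor_coeff_one, coeff_shf_zero]
        exact hR.smooth
      have h2 : (b 0).divX.eval (x - x₀) =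
          (b 0).divX.divX.eval (x - x₀) * (x - x₀) + (b 0).coeff 1 := by
        conv_lhs => rw [← divX_mul_X_add (b 0).divX]
        rw [eval_add, eval_mul, eval_X, eval_C, coeff_divX]
      have h3 : w ((b 0).divX.eval (x - x₀)) = 1 := by
        rw [h2]
        have h4 : w ((b 0).divX.divX.eval (x - x₀) * (x - x₀)) < w ((b 0).coeff 1) := by
          rw [hmem 0 hm 1 h1, map_mul]
          refine lt_of_le_of_lt (mul_le_of_le_one_left' (val_eval_le w _ (fun j => ?_) hx.le)) hx
          rw [coeff_divX, coeff_divX]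
          exact hle 0 hm _
        rw [w.map_add_eq_of_lt_right h4, hmem 0 hm 1 h1]
      rw [h3, one_mul]

end Pool.Agent.H36.LA
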