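import Pool.Agent.H36.LA.LOC
import Pool.Agent.H27.LG.Curve

/-!
# MP_6b5a9a_nt: the points above `x` are close to `(x₀, z₀)` if `x` is close to `x₀` (NEA)
-/

set_option autoImplicit false

open CategoryTheory Polynomial

noncomputable section

namespace Pool.Agent.H36.LA

open Pool.Agent.H29.LA

theorem pf_NEA : T_NEA := by
  intro Ω _ Γ₀ _ v m f x₀ z₀ d hm hR hd
  have hlip : ∀ i : Fin m, ∃ C : Ω, C ≠ 0 ∧ ∀ x, v (x - x₀) ≤ 1 →
      v (((shf f z₀).coeff i).eval x) ≤ v C * v (x - x₀) := fun i =>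
    Pool.H27.LG.exists_lip v _ x₀ (coeff_zero hR i.2)
  choose Cc hC0 hC using hlip
  obtain ⟨e, he0, he⟩ := Pool.H27.LG.exists_min_fin v
    (fun i : Fin 2 => (![1, d] : Fin 2 → Ω) i) (by
      intro i
      fin_cases i
      · exact one_ne_zero
      · exact hd)
  have he1 : v e ≤ 1 := by simpa using he 0
  have hed : v e ≤ v d := by simpa using he 1
  obtain ⟨c, hc0, hc⟩ := Pool.H27.LG.exists_min_fin v
    (fun i : Fin 2 ⊕ Fin m => (Sum.elim (![1, d] : Fin 2 → Ω) (fun i => e ^ m / Cc i)) i) (by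
      rintro (i | i)
      · fin_cases i
        · exact one_ne_zero
        · exact hd
      · exact div_ne_zero (pow_ne_zero _ he0) (hC0 i))
  have hc1 : v c ≤ 1 := by simpa using hc (Sum.inl 0)
  have hcd : v c ≤ v d := by simpa using hc (Sum.inl 1)
  have hcC : ∀ i : Fin m, v (Cc i) * v c ≤ v e ^ m := by
    intro i
    have h1 : v c ≤ v (e ^ m / Cc i) := hc (Sum.inr i)
    have h2 : 0 < v (Cc i) := (Valuation.pos_iff v).mpr (hC0 i)
    rw [map_div₀, map_pow] at h1
    rw [mul_comm]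
    exact (le_div_iff₀ h2).1 h1
  refine ⟨c, hc0, fun x z hz hx => ⟨hx.trans_le hcd, ?_⟩⟩
  by_contra hcon
  push Not at hcon
  have hev : 0 < v e := (Valuation.pos_iff v).mpr he0
  have het : v e ≤ v (z - z₀) := hed.trans hcon
  have htpos : 0 < v (z - z₀) := hev.trans_le het
  set G : Polynomial Ω := (fib f x).comp (X + C z₀) with hG
  have hfm : (fib f x).Monic := hR.monic.map _
  have hfd : (fib f x).natDegree = m := by
    rw [fib, hR.monic.natDegree_map, hR.deg]
  have hGm : G.Monic := hfm.comp_X_add_C z₀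
  have hGd : G.natDegree = m := by
    rw [hG, natDegree_comp, natDegree_X_add_C, mul_one, hfd]
  have hGe : G.eval (z - z₀) = 0 := by
    rw [hG, eval_comp, eval_add, eval_X, eval_C, sub_add_cancel]
    exact hz
  rw [eval_eq_sum_range, hGd, Finset.sum_range_succ] at hGe
  have hlead : G.coeff m = 1 := by
    rw [← hGd]
    exact hGm
  rw [hlead, one_mul] at hGe
  have h1 : (z - z₀) ^ m = -∑ i ∈ Finset.range m, G.coeff i * (z - z₀) ^ i :=
    eq_neg_of_add_eq_zero_right hGe
  have h2 : v (∑ i ∈ Finset.range m, G.coeff i * (z - z₀) ^ i) < v (z - z₀) ^ m := by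
    refine v.map_sum_lt (pow_ne_zero _ htpos.ne') fun i hi => ?_
    have him : i < m := Finset.mem_range.1 hi
    rw [map_mul, map_pow]
    have h3 : v (G.coeff i) < v (z - z₀) ^ (m - i) := by
      rw [hG, coeff_fib]
      calc v (((shf f z₀).coeff i).eval x) ≤ v (Cc ⟨i, him⟩) * v (x - x₀) :=
            hC ⟨i, him⟩ x (hx.le.trans hc1)
        _ < v (Cc ⟨i, him⟩) * v c :=
            mul_lt_mul_of_pos_left hx ((Valuation.pos_iff v).mpr (hC0 _))
        _ ≤ v e ^ m := hcC ⟨i, him⟩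
        _ ≤ v e ^ (m - i) := pow_le_pow_right_of_le_one' he1 (Nat.sub_le _ _)
        _ ≤ v (z - z₀) ^ (m - i) := pow_le_pow_left' het _
    calc v (G.coeff i) * v (z - z₀) ^ i < v (z - z₀) ^ (m - i) * v (z - z₀) ^ i :=
          mul_lt_mul_of_pos_right h3 (pow_pos htpos _)
      _ = v (z - z₀) ^ m := by rw [← pow_add, Nat.sub_add_cancel him.le]
  rw [← map_pow, h1, Valuation.map_neg] at h2
  exact lt_irrefl _ h2

end Pool.Agent.H36.LA
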