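import Pool.Agent.H97.LA.Targets
import Pool.Agent.H37.XS.AVA

/-!
ORBX: the number of functionals which vanish on a stabiliser (after H37/XS/AVA)
-/

set_option autoImplicit false

namespace Pool.Agent.H36.LA

open Finset Pool.Agent.H60.SYM Pool.Agent.H42.XS Pool.Agent.H97.LA
open Pool.Agent.H37.XS (res res_apply res_surj)

theorem pf_ORBX : T_ORBX := by
  classical
  intro n N U a ha
  have : Finite (Fin n → ZMod 2) := inferInstance
  have : Finite U := inferInstance
  have h0 : a 0 = 1 := by
    have h := ha 0 U.zero_mem 0 U.zero_mem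
    rw [add_zero] at h
    exact mul_eq_left.1 h.symm
  let L : U → Equiv.Perm (Fin N) → Prop := fun u b => b = a (u : Fin n → ZMod 2)
  have : Finite (Module.Dual (ZMod 2) U) := Module.finite_of_finite (ZMod 2)
  have : Fintype (Module.Dual (ZMod 2) U) := Fintype.ofFinite _
  obtain ⟨Ω, hΩ⟩ : ∃ Ω : Finset (Module.Dual (ZMod 2) U), Ω = univ.filter fun w =>
    ∃ g, ∀ u b, L u b → b g = g → w u = 0 := ⟨_, rfl⟩
  have hcard : Ω.card ≤ N := by
    refine Pool.Agent.H2.SYM.orb N U L ?_ ?_ ?_ ?_ Ω ?_
    · change 1 = a ((0 : U) : Fin n → ZMod 2)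
      rw [Submodule.coe_zero, h0]
    · intro v w b b' hb hb'
      change b * b' = a ((v + w : U) : Fin n → ZMod 2)
      rw [Submodule.coe_add, ha _ v.2 _ w.2, hb, hb']
    · intro v b hb
      change b⁻¹ = a (v : Fin n → ZMod 2)
      have h2 : (v : Fin n → ZMod 2) + v = 0 := by
        funext x
        rw [Pi.add_apply, Pi.zero_apply]
        generalize (v : Fin n → ZMod 2) x = t
        revert t
        decide
      have h3 := ha _ v.2 _ v.2
      rw [h2, h0] at h3
      rw [hb]
      exact (eq_inv_of_mul_eq_one_left h3.symm).symm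
    · intro v
      exact ⟨_, rfl⟩
    · intro w hw
      rw [hΩ, mem_filter] at hw
      exact hw.2
  have hav : ∀ z, (∃ x, ∀ f ∈ U, a f x = x → pair z f = 0) → res U z ∈ Ω := by
    intro z hz
    rw [hΩ, mem_filter]
    obtain ⟨g, hg⟩ := hz
    exact ⟨mem_univ _, g, fun u b hb hf => hg u u.2 (by rw [← hb]; exact hf)⟩
  have hker : (Nat.card (LinearMap.ker (res U))) * 2 ^ Module.finrank (ZMod 2) U = 2 ^ n := by
    have h1 : Module.finrank (ZMod 2) (LinearMap.range (res U)) +
        Module.finrank (ZMod 2) (LinearMap.ker (res U)) =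
          Module.finrank (ZMod 2) (Fin n → ZMod 2) := LinearMap.finrank_range_add_finrank_ker _
    rw [LinearMap.range_eq_top.2 (res_surj U), finrank_top, Subspace.dual_finrank_eq,
      Module.finrank_fin_fun] at h1
    have h2 : Nat.card (LinearMap.ker (res U)) =
        2 ^ Module.finrank (ZMod 2) (LinearMap.ker (res U)) := by
      have : Fintype (LinearMap.ker (res U)) := Fintype.ofFinite _
      rw [Nat.card_eq_fintype_card, Module.card_eq_pow_finrank (K := ZMod 2), ZMod.card]
    rw [h2, ← pow_add, add_comm, h1]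
  have hfib : ∀ w : Module.Dual (ZMod 2) U,
      (univ.filter fun z : Fin n → ZMod 2 => res U z = w).card ≤
        Nat.card (LinearMap.ker (res U)) := by
    intro w
    obtain ⟨z₀, hz₀⟩ := res_surj U w
    have : Fintype (LinearMap.ker (res U)) := Fintype.ofFinite _
    rw [Nat.card_eq_fintype_card, ← Finset.card_univ]
    refine Finset.card_le_card_of_injOn (fun z => if h : z - z₀ ∈ LinearMap.ker (res U)
      then ⟨z - z₀, h⟩ else 0) (fun _ _ => Finset.mem_coe.2 (mem_univ _)) ?_
    intro z hz z' hz' he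
    have hk : ∀ y ∈ (univ.filter fun z : Fin n → ZMod 2 => res U z = w),
        y - z₀ ∈ LinearMap.ker (res U) := by
      intro y hy
      rw [mem_filter] at hy
      rw [LinearMap.mem_ker, map_sub, hy.2, hz₀, sub_self]
    simp only at he
    rw [dif_pos (hk z (Finset.mem_coe.1 hz)), dif_pos (hk z' (Finset.mem_coe.1 hz'))] at he
    have := congrArg Subtype.val he
    simp only at this
    exact sub_left_inj.1 this
  have hmain : Nat.card {z : Fin n → ZMod 2 // ∃ x, ∀ f ∈ U, a f x = x → pair z f = 0} *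
      2 ^ Module.finrank (ZMod 2) U ≤ N * 2 ^ n := by
    have h1 : Nat.card {z : Fin n → ZMod 2 // ∃ x, ∀ f ∈ U, a f x = x → pair z f = 0} ≤
        Ω.card * Nat.card (LinearMap.ker (res U)) := by
      rw [Nat.card_eq_fintype_card, Fintype.card_subtype]
      have h2 : (univ.filter fun z : Fin n → ZMod 2 => ∃ x, ∀ f ∈ U, a f x = x → pair z f = 0) ⊆
          Ω.biUnion fun w => univ.filter fun z : Fin n → ZMod 2 => res U z = w := by
        intro z hz
        rw [mem_filter] at hz
        exact mem_biUnion.2 ⟨res U z, hav z hz.2, mem_filter.2 ⟨mem_univ _, rfl⟩⟩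
      refine (card_le_card h2).trans (card_biUnion_le.trans ?_)
      rw [← smul_eq_mul, ← Finset.sum_const]
      exact sum_le_sum fun w _ => hfib w
    calc Nat.card {z : Fin n → ZMod 2 // ∃ x, ∀ f ∈ U, a f x = x → pair z f = 0} *
          2 ^ Module.finrank (ZMod 2) U
        ≤ (Ω.card * Nat.card (LinearMap.ker (res U))) * 2 ^ Module.finrank (ZMod 2) U :=
          Nat.mul_le_mul_right _ h1
      _ = Ω.card * 2 ^ n := by rw [mul_assoc, hker]
      _ ≤ N * 2 ^ n := Nat.mul_le_mul_right _ hcard
  have hr : (2 : ℝ) ^ ((n : ℝ) - Module.finrank (ZMod 2) U) =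
      2 ^ n / 2 ^ Module.finrank (ZMod 2) U := by
    rw [Real.rpow_sub (by norm_num), Real.rpow_natCast, Real.rpow_natCast]
  rw [hr, ← mul_div_assoc, le_div_iff₀ (by positivity)]
  exact_mod_cast hmain

end Pool.Agent.H36.LA
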